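import Mathlib

namespace Pool.Agent.Results.MP_8bdd73_co.Bound

open Finset

def IsBroadcast {V : Type} (G : SimpleGraph V) (f : V → ℕ) : Prop :=
  ∀ v, ((∀ u, ¬ G.Adj v u) → f v = 1) ∧
    ((∃ u, G.Adj v u) → ∃ u, G.Reachable v u ∧ f v ≤ G.dist v u)

def BnIndep {V : Type} (G : SimpleGraph V) (f : V → ℕ) : Prop :=
  ∀ u v, u ≠ v → 0 < f u → 0 < f v → ∀ w, G.edist u w ≤ f u → G.edist v w ≤ f v →
    G.edist u w = f u ∧ G.edist v w = f v

noncomputable def alphaBn {V : Type} [Fintype V] (G : SimpleGraph V) : ℕ :=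
  sSup {s | ∃ f : V → ℕ, IsBroadcast G f ∧ BnIndep G f ∧ ∑ v, f v = s}

variable {V : Type} (G : SimpleGraph V)

lemma down (v : V) (m : ℕ) (h : ∃ u, G.edist v u = (m + 1 : ℕ)) : ∃ x, G.edist v x = m := by
  obtain ⟨u, hu⟩ := h
  obtain ⟨p, hp⟩ := SimpleGraph.exists_walk_of_edist_eq_coe hu.symm.symm
  have h1 : G.edist v (p.getVert m) ≤ m := by
    have := SimpleGraph.edist_le (p.take m)
    rw [SimpleGraph.Walk.take_length, min_eq_left (by omega)] at this
    exact this
  have h2 : G.edist (p.getVert m) u ≤ 1 := by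
    have := p.adj_getVert_succ (i := m) (by omega)
    rw [← hp, p.getVert_length] at this
    exact (SimpleGraph.edist_eq_one_iff_adj.mpr this).le
  refine ⟨p.getVert m, le_antisymm h1 ?_⟩
  have h3 := (G.edist_triangle (u := v) (v := p.getVert m) (w := u)).trans
    (add_le_add_right h2 _)
  rw [hu] at h3
  push_cast at h3
  exact (ENat.add_le_add_iff_right ENat.one_ne_top).mp h3

lemma spheres (v u : V) (k : ℕ) (hr : G.Reachable v u) (hk : k ≤ G.dist v u) (i : ℕ)
    (hi : i ≤ k) : ∃ x, G.edist v x = i := by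
  have key : ∀ j, j ≤ G.dist v u → ∃ x, G.edist v x = (G.dist v u - j : ℕ) := by
    intro j
    induction j with
    | zero => exact fun _ => ⟨u, hr.coe_dist_eq_edist.symm⟩
    | succ j ih =>
      intro hj
      apply down
      have : G.dist v u - (j + 1) + 1 = G.dist v u - j := by omega
      rw [this]
      exact ih (by omega)
  obtain ⟨x, hx⟩ := key (G.dist v u - i) (by omega)
  have : G.dist v u - (G.dist v u - i) = i := by omega
  exact ⟨x, this ▸ hx⟩

open Classical in
lemma inner [Fintype V] (f : V → ℕ) (hf : IsBroadcast G f) (v : V) :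
    f v ≤ (univ.filter fun w => G.edist v w < f v).card := by
  by_cases h : ∃ u, G.Adj v u
  · obtain ⟨u, hr, hu⟩ := (hf v).2 h
    haveI : Nonempty V := ⟨v⟩
    choose! x hx using spheres G v u (f v) hr hu
    conv_lhs => rw [← card_range (f v)]
    apply card_le_card_of_injOn x
    · intro i hi
      have hi' : i < f v := mem_range.mp hi
      simp only [coe_filter, mem_univ, true_and, Set.mem_setOf_eq]
      rw [hx i hi'.le]
      exact_mod_cast hi'
    · intro i hi j hj e
      have h1 := hx i (mem_range.mp hi).le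
      rw [e, hx j (mem_range.mp hj).le] at h1
      exact_mod_cast h1.symm
  · rw [(hf v).1 (fun u hu => h ⟨u, hu⟩)]
    exact card_pos.mpr ⟨v, by simp⟩

open Classical in
lemma ball [Fintype V] [DecidableRel G.Adj] (f : V → ℕ) (hf : IsBroadcast G f) (v : V) (hv : 0 < f v) :
    f v + G.degree v ≤ (univ.filter fun w => G.edist v w ≤ f v).card := by
  by_cases h : ∃ u, G.Adj v u
  · obtain ⟨u, hr, hu⟩ := (hf v).2 h
    haveI : Nonempty V := ⟨v⟩
    choose! x hx using spheres G v u (f v) hr hu
    have hinj : Set.InjOn x ((range (f v + 1)).erase 1 : Finset ℕ) := by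
      intro i hi j hj e
      have h1 := hx i (Nat.lt_succ_iff.mp (mem_range.mp (mem_of_mem_erase hi)))
      rw [e, hx j (Nat.lt_succ_iff.mp (mem_range.mp (mem_of_mem_erase hj)))] at h1
      exact_mod_cast h1.symm
    have hc : (((range (f v + 1)).erase 1).image x).card = f v := by
      rw [card_image_of_injOn hinj, card_erase_of_mem (mem_range.mpr (by omega)), card_range]
      rfl
    have hd : Disjoint (((range (f v + 1)).erase 1).image x) (G.neighborFinset v) := by
      rw [disjoint_left]
      intro w hw hn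
      obtain ⟨i, hi, rfl⟩ := mem_image.mp hw
      have h1 := hx i (Nat.lt_succ_iff.mp (mem_range.mp (mem_of_mem_erase hi)))
      rw [SimpleGraph.edist_eq_one_iff_adj.mpr ((G.mem_neighborFinset _ _).mp hn)] at h1
      exact (mem_erase.mp hi).1 (by exact_mod_cast h1.symm)
    rw [← SimpleGraph.card_neighborFinset_eq_degree]
    conv_lhs => rw [← hc]
    rw [← card_union_of_disjoint hd]
    apply card_le_card
    intro w hw
    rw [mem_filter]
    refine ⟨mem_univ _, ?_⟩
    rcases mem_union.mp hw with hw | hw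
    · obtain ⟨i, hi, rfl⟩ := mem_image.mp hw
      have h0 := Nat.lt_succ_iff.mp (mem_range.mp (mem_of_mem_erase hi))
      rw [hx i h0]
      exact_mod_cast h0
    · rw [SimpleGraph.edist_eq_one_iff_adj.mpr ((G.mem_neighborFinset _ _).mp hw)]
      exact_mod_cast hv
  · have h0 : G.degree v = 0 := by
      by_contra hne
      exact h ((G.degree_pos_iff_exists_adj v).mp (Nat.pos_of_ne_zero hne))
    rw [h0, (hf v).1 (fun u hu => h ⟨u, hu⟩)]
    exact card_pos.mpr ⟨v, by simp⟩

open Classical in
lemma main [Fintype V] [DecidableRel G.Adj] (f : V → ℕ) (hf : IsBroadcast G f)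
    (hb : BnIndep G f) (v : V) (hv : 0 < f v) : ∑ u, f u + G.degree v ≤ Fintype.card V := by
  let S : V → Finset V := fun u =>
    if u = v then univ.filter fun w => G.edist v w ≤ f v
    else univ.filter fun w => G.edist u w < f u
  have hle : ∀ u w, w ∈ S u → G.edist u w ≤ f u ∧ 0 < f u ∧ (u ≠ v → G.edist u w < f u) := by
    intro u w hw
    by_cases h : u = v
    · subst h
      simp only [S, if_true, mem_filter] at hw
      exact ⟨hw.2, hv, fun h => absurd rfl h⟩
    · simp only [S, if_neg h, mem_filter] at hw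
      refine ⟨hw.2.le, ?_, fun _ => hw.2⟩
      have : (0 : ℕ∞) < f u := lt_of_le_of_lt bot_le hw.2
      exact_mod_cast this
  have hdis : ∀ a ∈ (univ : Finset V), ∀ b ∈ (univ : Finset V), a ≠ b → Disjoint (S a) (S b) := by
    intro a _ b _ hab
    rw [disjoint_left]
    intro w ha hb'
    obtain ⟨a1, a2, a3⟩ := hle a w ha
    obtain ⟨b1, b2, b3⟩ := hle b w hb'
    obtain ⟨e1, e2⟩ := hb a b hab a2 b2 w a1 b1
    by_cases h : a = v
    · exact (b3 (fun h' => hab (h.trans h'.symm))).ne e2
    · exact (a3 h).ne e1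
  have h1 : ∑ u, (S u).card ≤ Fintype.card V := by
    rw [← card_biUnion hdis]
    exact card_le_univ _
  have h2 : ∑ u, (f u + if u = v then G.degree v else 0) ≤ ∑ u, (S u).card := by
    apply sum_le_sum
    intro u _
    by_cases h : u = v
    · subst h
      simp only [S, if_true]
      exact ball G f hf u hv
    · simp only [S, if_neg h, add_zero]
      exact inner G f hf u
  rw [sum_add_distrib, sum_ite_eq' univ v, if_pos (mem_univ v)] at h2
  omega

theorem result (V : Type) [Fintype V] (G : SimpleGraph V) [DecidableRel G.Adj] :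
    (∀ f : V → ℕ, IsBroadcast G f → BnIndep G f → ∑ v, f v + G.minDegree ≤ Fintype.card V) ∧
      alphaBn G + G.minDegree ≤ Fintype.card V := by
  have h0 : G.minDegree ≤ Fintype.card V := by
    cases isEmpty_or_nonempty V with
    | inl h => simp
    | inr h =>
      obtain ⟨v⟩ := h
      exact (G.minDegree_le_degree v).trans (G.degree_lt_card_verts v).le
  have h : ∀ f : V → ℕ, IsBroadcast G f → BnIndep G f →
      ∑ v, f v + G.minDegree ≤ Fintype.card V := by
    intro f hf hb
    by_cases hz : ∃ v, 0 < f v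
    · obtain ⟨v, hv⟩ := hz
      have h1 := main G f hf hb v hv
      have h2 := G.minDegree_le_degree v
      omega
    · have : ∑ v, f v = 0 := sum_eq_zero fun v _ => by
        by_contra hne
        exact hz ⟨v, Nat.pos_of_ne_zero hne⟩
      omega
  refine ⟨h, ?_⟩
  have : alphaBn G ≤ Fintype.card V - G.minDegree := by
    apply csSup_le'
    rintro s ⟨f, hf, hb, rfl⟩
    have := h f hf hb
    omega
  omega

end Pool.Agent.Results.MP_8bdd73_co.Bound
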